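import Pool.Agent.Helper74.Riesz.Gauss1
import Pool.Agent.Helper74.Riesz.PDId

/-!
# Riesz energy of neutral measures as a Gaussian mixture
-/

set_option autoImplicit false
open MeasureTheory Set Filter Topology
open scoped ENNReal NNReal FourierTransform SchwartzMap

namespace Helper23.Riesz

variable {s : ℝ} {d : ℕ}

/-! ### the module ENERGY -/

section
variable {X : Type*} [PseudoMetricSpace X] [SecondCountableTopology X] [MeasurableSpace X]
  [OpensMeasurableSpace X]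

theorem integrable_exp_dist (μ ν : Measure X) [IsFiniteMeasure μ] [IsFiniteMeasure ν] {t : ℝ}
    (ht : 0 ≤ t) :
    Integrable (fun p : X × X => Real.exp (-(t * dist p.1 p.2 ^ 2))) (μ.prod ν) := by
  refine Integrable.of_bound (C := 1) ?_ (Eventually.of_forall fun p => ?_)
  · apply Measurable.aestronglyMeasurable
    fun_prop
  · rw [Real.norm_eq_abs, abs_of_pos (Real.exp_pos _)]
    apply Real.exp_le_one_iff.2
    have := mul_nonneg ht (sq_nonneg (dist p.1 p.2))
    linarith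

theorem Qt_eq (μ ν : Measure X) [IsFiniteMeasure μ] [IsFiniteMeasure ν] {t : ℝ} (ht : 0 ≤ t) :
    Qt t μ ν = ∫ p : X × X, Real.exp (-(t * dist p.1 p.2 ^ 2)) ∂(μ.prod ν) := by
  unfold Qt
  rw [integral_prod _ (integrable_exp_dist μ ν ht)]

theorem ae_dist_le (μ ν : Measure X) [IsFiniteMeasure μ] [IsFiniteMeasure ν] (o : X) (r : ℝ)
    (h1 : μ (Metric.closedBall o r)ᶜ = 0) (h2 : ν (Metric.closedBall o r)ᶜ = 0) :
    ∀ᵐ p ∂(μ.prod ν), dist p.1 p.2 ≤ 2 * r := by
  have e1 : ∀ᵐ p ∂(μ.prod ν), p.1 ∈ Metric.closedBall o r := by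
    have : ∀ᵐ x ∂μ, x ∈ Metric.closedBall o r := h1
    exact Measure.quasiMeasurePreserving_fst.ae this
  have e2 : ∀ᵐ p ∂(μ.prod ν), p.2 ∈ Metric.closedBall o r := by
    have : ∀ᵐ x ∂ν, x ∈ Metric.closedBall o r := h2
    exact Measure.quasiMeasurePreserving_snd.ae this
  filter_upwards [e1, e2] with p hp1 hp2
  rw [Metric.mem_closedBall] at hp1 hp2
  have := dist_triangle_right p.1 p.2 o
  linarith

/-- the integrand -/
noncomputable def Fd (a : ℝ) (p : X × X) (t : ℝ) : ℝ :=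
  t ^ (-(a / 2) - 1) * (1 - Real.exp (-(t * dist p.1 p.2 ^ 2)))

theorem Fd_meas (a : ℝ) : Measurable (fun q : (X × X) × ℝ => Fd a q.1 q.2) := by
  unfold Fd
  refine Measurable.mul (measurable_snd.pow_const _) ?_
  fun_prop

theorem Fd_nonneg (a : ℝ) (p : X × X) {t : ℝ} (ht : 0 < t) : 0 ≤ Fd a p t := by
  apply mul_nonneg (Real.rpow_nonneg ht.le _)
  have : Real.exp (-(t * dist p.1 p.2 ^ 2)) ≤ 1 := by
    apply Real.exp_le_one_iff.2
    have := mul_nonneg ht.le (sq_nonneg (dist p.1 p.2))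
    linarith
  linarith

theorem Fd_intOn {a : ℝ} (ha : 0 < a) (ha2 : a < 2) (p : X × X) :
    Integrable (Fd a p) (volume.restrict (Ioi (0:ℝ))) :=
  integrableOn_gd (a := a) ha ha2 (u := dist p.1 p.2 ^ 2) (sq_nonneg _)

theorem Fd_int {a : ℝ} (ha : 0 < a) (ha2 : a < 2) (p : X × X) :
    dist p.1 p.2 ^ a = ca a * ∫ t in Ioi (0:ℝ), Fd a p t :=
  gauss_decomp (a := a) ha ha2 (r := dist p.1 p.2) dist_nonneg

theorem Fd_norm_int {a : ℝ} (ha : 0 < a) (ha2 : a < 2) (p : X × X) :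
    ∫ t in Ioi (0:ℝ), ‖Fd a p t‖ = (ca a)⁻¹ * dist p.1 p.2 ^ a := by
  rw [Fd_int ha ha2 p, ← mul_assoc, inv_mul_cancel₀ (ca_pos ha ha2).ne', one_mul]
  refine setIntegral_congr_fun measurableSet_Ioi fun t ht => ?_
  show ‖Fd a p t‖ = Fd a p t
  rw [Real.norm_eq_abs, abs_of_nonneg (Fd_nonneg a p ht)]

theorem Fd_inner (a : ℝ) (μ ν : Measure X) [IsFiniteMeasure μ] [IsFiniteMeasure ν] {t : ℝ}
    (ht : 0 < t) : ∫ p, Fd a p t ∂(μ.prod ν) =
      t ^ (-(a / 2) - 1) * (μ.real univ * ν.real univ - Qt t μ ν) := by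
  unfold Fd
  rw [integral_const_mul, integral_sub (integrable_const _) (integrable_exp_dist μ ν ht.le),
    integral_const, ← Qt_eq μ ν ht.le, smul_eq_mul, mul_one]
  congr 2
  rw [measureReal_def, ← univ_prod_univ, Measure.prod_prod, ENNReal.toReal_mul]
  rfl

theorem Im_decomp {a : ℝ} (ha : 0 < a) (ha2 : a < 2) (μ ν : Measure X) [IsFiniteMeasure μ]
    [IsFiniteMeasure ν] (o : X) (r : ℝ) (h1 : μ (Metric.closedBall o r)ᶜ = 0)
    (h2 : ν (Metric.closedBall o r)ᶜ = 0) :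
    IntegrableOn (fun t : ℝ => t ^ (-(a / 2) - 1) * (μ.real univ * ν.real univ - Qt t μ ν))
      (Ioi (0:ℝ)) ∧
    Im (-a) μ ν = ca a * ∫ t in Ioi (0:ℝ),
      t ^ (-(a / 2) - 1) * (μ.real univ * ν.real univ - Qt t μ ν) := by
  have hae := ae_dist_le μ ν o r h1 h2
  have hint : Integrable (fun p : X × X => dist p.1 p.2 ^ a) (μ.prod ν) := by
    refine Integrable.of_bound (C := (2 * |r|) ^ a) ?_ ?_
    · apply Measurable.aestronglyMeasurable
      exact (measurable_dist).pow_const _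
    · filter_upwards [hae] with p hp
      rw [Real.norm_eq_abs, abs_of_nonneg (Real.rpow_nonneg dist_nonneg _)]
      refine Real.rpow_le_rpow dist_nonneg (hp.trans ?_) ha.le
      have := le_abs_self r
      linarith
  have hFint : Integrable (Function.uncurry (Fd a))
      ((μ.prod ν).prod (volume.restrict (Ioi (0:ℝ)))) := by
    have hm : AEStronglyMeasurable (Function.uncurry (Fd a))
        ((μ.prod ν).prod (volume.restrict (Ioi (0:ℝ)))) :=
      (Fd_meas a).aestronglyMeasurable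
    rw [integrable_prod_iff hm]
    constructor
    · exact Eventually.of_forall fun p => Fd_intOn ha ha2 p
    · have h3 : (fun p : X × X => ∫ t, ‖Function.uncurry (Fd a) (p, t)‖
          ∂(volume.restrict (Ioi (0:ℝ)))) = fun p => (ca a)⁻¹ * dist p.1 p.2 ^ a := by
        funext p
        exact Fd_norm_int ha ha2 p
      rw [h3]
      exact hint.const_mul _
  constructor
  · have h3 := hFint.integral_prod_right
    refine IntegrableOn.congr_fun (f := fun t => ∫ p, Fd a p t ∂(μ.prod ν)) h3 ?_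
      measurableSet_Ioi
    intro t ht
    exact Fd_inner a μ ν ht
  · have h4 : Im (-a) μ ν = ∫ p : X × X, dist p.1 p.2 ^ a ∂(μ.prod ν) := by
      unfold Im
      rw [integral_prod _ hint]
      simp only [neg_neg]
    rw [h4]
    have h5 : ∫ p : X × X, dist p.1 p.2 ^ a ∂(μ.prod ν) =
        ∫ p : X × X, ca a * (∫ t in Ioi (0:ℝ), Fd a p t) ∂(μ.prod ν) :=
      integral_congr_ae (Eventually.of_forall fun p => Fd_int ha ha2 p)
    rw [h5, integral_const_mul, integral_integral_swap hFint]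
    congr 1
    exact setIntegral_congr_fun measurableSet_Ioi fun t ht => Fd_inner a μ ν ht

end

theorem energy_identity (hs : -2 < s) (hs0 : s < 0) (μ ν : Measure (R d)) [IsFiniteMeasure μ]
    [IsFiniteMeasure ν] (hm : μ univ = ν univ) (r : ℝ) (h1 : μ (Metric.closedBall 0 r)ᶜ = 0)
    (h2 : ν (Metric.closedBall 0 r)ᶜ = 0) :
    0 ≤ 2 * Im s μ ν - Im s μ μ - Im s ν ν ∧
      ENNReal.ofReal (2 * Im s μ ν - Im s μ μ - Im s ν ν) = ENNReal.ofReal (ca (-s)) *
        ∫⁻ t in Ioi (0:ℝ), wt (-s) t * ∫⁻ ξ : R d, ENNReal.ofReal (gam t ξ) *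
          ENNReal.ofReal (‖chi μ ξ - chi ν ξ‖ ^ 2) := by
  obtain ⟨a, rfl⟩ : ∃ a, s = -a := ⟨-s, by ring⟩
  have ha : 0 < a := by linarith
  have ha2 : a < 2 := by linarith
  rw [neg_neg]
  have hca := ca_pos ha ha2
  obtain ⟨i1, e1⟩ := Im_decomp ha ha2 μ ν 0 r h1 h2
  obtain ⟨i2, e2⟩ := Im_decomp ha ha2 μ μ 0 r h1 h1
  obtain ⟨i3, e3⟩ := Im_decomp ha ha2 ν ν 0 r h2 h2
  have hmr : μ.real univ = ν.real univ := by
    rw [measureReal_def, measureReal_def, hm]
  have hkey : 2 * Im (-a) μ ν - Im (-a) μ μ - Im (-a) ν ν = ca a * ∫ t in Ioi (0:ℝ),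
      t ^ (-(a / 2) - 1) * (Qt t μ μ - 2 * Qt t μ ν + Qt t ν ν) := by
    have : ∫ t in Ioi (0:ℝ), t ^ (-(a / 2) - 1) * (Qt t μ μ - 2 * Qt t μ ν + Qt t ν ν) =
        2 * (∫ t in Ioi (0:ℝ), t ^ (-(a / 2) - 1) * (μ.real univ * ν.real univ - Qt t μ ν)) -
        (∫ t in Ioi (0:ℝ), t ^ (-(a / 2) - 1) * (μ.real univ * μ.real univ - Qt t μ μ)) -
        (∫ t in Ioi (0:ℝ), t ^ (-(a / 2) - 1) * (ν.real univ * ν.real univ - Qt t ν ν)) := by
      have j1 := integral_const_mul (μ := volume.restrict (Ioi (0:ℝ))) (2:ℝ)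
        (fun t : ℝ => t ^ (-(a / 2) - 1) * (μ.real univ * ν.real univ - Qt t μ ν))
      have j2 := integral_sub (i1.const_mul 2) i2
      have j3 := integral_sub ((i1.const_mul 2).sub i2) i3
      have j4 : ∫ t in Ioi (0:ℝ), t ^ (-(a / 2) - 1) * (Qt t μ μ - 2 * Qt t μ ν + Qt t ν ν) =
          ∫ t in Ioi (0:ℝ), (((fun t : ℝ => 2 * (t ^ (-(a / 2) - 1) *
            (μ.real univ * ν.real univ - Qt t μ ν))) - fun t : ℝ => t ^ (-(a / 2) - 1) *
              (μ.real univ * μ.real univ - Qt t μ μ)) t - t ^ (-(a / 2) - 1) *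
                (ν.real univ * ν.real univ - Qt t ν ν)) := by
        congr 1
        funext t
        simp only [Pi.sub_apply]
        rw [hmr]
        ring
      have j5 : ∫ t in Ioi (0:ℝ), ((fun t : ℝ => 2 * (t ^ (-(a / 2) - 1) *
            (μ.real univ * ν.real univ - Qt t μ ν))) - fun t : ℝ => t ^ (-(a / 2) - 1) *
              (μ.real univ * μ.real univ - Qt t μ μ)) t =
          ∫ t in Ioi (0:ℝ), (2 * (t ^ (-(a / 2) - 1) *
            (μ.real univ * ν.real univ - Qt t μ ν)) - t ^ (-(a / 2) - 1) *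
              (μ.real univ * μ.real univ - Qt t μ μ)) := rfl
      rw [j4, j3, j5, j2, j1]
    rw [this, e1, e2, e3]
    ring
  have hint : IntegrableOn (fun t : ℝ =>
      t ^ (-(a / 2) - 1) * (Qt t μ μ - 2 * Qt t μ ν + Qt t ν ν)) (Ioi (0:ℝ)) := by
    have := ((i1.const_mul 2).sub i2).sub i3
    refine this.congr (Eventually.of_forall fun t => ?_)
    simp only [Pi.sub_apply]
    rw [hmr]
    ring
  have hnn : ∀ t ∈ Ioi (0:ℝ), 0 ≤ t ^ (-(a / 2) - 1) * (Qt t μ μ - 2 * Qt t μ ν + Qt t ν ν) :=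
    fun t ht => mul_nonneg (Real.rpow_nonneg (le_of_lt ht) _) (pd_identity μ ν ht).1
  rw [hkey]
  constructor
  · exact mul_nonneg hca.le (setIntegral_nonneg measurableSet_Ioi hnn)
  · rw [ENNReal.ofReal_mul hca.le]
    congr 1
    rw [ofReal_integral_eq_lintegral_ofReal hint
      ((ae_restrict_iff' measurableSet_Ioi).2 (Eventually.of_forall hnn))]
    refine setLIntegral_congr_fun measurableSet_Ioi fun t ht => ?_
    rw [ENNReal.ofReal_mul (Real.rpow_nonneg (le_of_lt ht) _), (pd_identity μ ν ht).2]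
    rfl

end Helper23.Riesz
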